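import Pool.Agent.H171R2.Tri.Core

/-!
Task T4 of helper171's project on triangle-free subsets of the triangular lattice:
boundary orbits of the sets of an odd packing.
-/

namespace Pool.Agent.H171R2.Tri

open Finset

theorem t4_e_add3 (k : ZMod 6) : e (k + 3) = - e k := by
  revert k; decide

theorem t4_z1 (k : ZMod 6) : k + 3 + 2 = k - 1 := by
  revert k; decide

theorem t4_back (v : Pt) (k : ZMod 6) : v + e k + e (k + 3) = v := by
  rw [t4_e_add3]; abel

theorem t4_six : ∀ k : ZMod 6, k = 0 ∨ k = 1 ∨ k = 2 ∨ k = 3 ∨ k = 4 ∨ k = 5 := by decide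

theorem t4_flat (m : ZMod 6 → Bool) (h : ∀ k, m k = m (k - 1) ∨ m (k + 1) = m k) :
    (m 0 = m 5 ∨ m 1 = m 0) ∧ (m 1 = m 0 ∨ m 2 = m 1) ∧ (m 2 = m 1 ∨ m 3 = m 2) ∧
    (m 3 = m 2 ∨ m 4 = m 3) ∧ (m 4 = m 3 ∨ m 5 = m 4) ∧ (m 5 = m 4 ∨ m 0 = m 5) := by
  have s0 : (0 : ZMod 6) - 1 = 5 := by decide
  have s1 : (1 : ZMod 6) - 1 = 0 := by decide
  have s2 : (2 : ZMod 6) - 1 = 1 := by decide
  have s3 : (3 : ZMod 6) - 1 = 2 := by decide
  have s4 : (4 : ZMod 6) - 1 = 3 := by decide
  have s5 : (5 : ZMod 6) - 1 = 4 := by decide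
  have p0 : (0 : ZMod 6) + 1 = 1 := by decide
  have p1 : (1 : ZMod 6) + 1 = 2 := by decide
  have p2 : (2 : ZMod 6) + 1 = 3 := by decide
  have p3 : (3 : ZMod 6) + 1 = 4 := by decide
  have p4 : (4 : ZMod 6) + 1 = 5 := by decide
  have p5 : (5 : ZMod 6) + 1 = 0 := by decide
  have e0 := h 0
  have e1 := h 1
  have e2 := h 2
  have e3 := h 3
  have e4 := h 4
  have e5 := h 5
  rw [s0, p0] at e0
  rw [s1, p1] at e1
  rw [s2, p2] at e2
  rw [s3, p3] at e3
  rw [s4, p4] at e4
  rw [s5, p5] at e5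
  exact ⟨e0, e1, e2, e3, e4, e5⟩

/-- finite check: two outgoing directions are equal -/
theorem t4_out (m : ZMod 6 → Bool)
    (h : ∀ k, m k = m (k - 1) ∨ m (k + 1) = m k) (k k' : ZMod 6)
    (h1 : m k = true) (h2 : m (k - 1) = false) (h3 : m k' = true) (h4 : m (k' - 1) = false) :
    k = k' := by
  obtain ⟨e0, e1, e2, e3, e4, e5⟩ := t4_flat m h
  have s0 : (0 : ZMod 6) - 1 = 5 := by decide
  have s1 : (1 : ZMod 6) - 1 = 0 := by decide
  have s2 : (2 : ZMod 6) - 1 = 1 := by decide
  have s3 : (3 : ZMod 6) - 1 = 2 := by decide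
  have s4 : (4 : ZMod 6) - 1 = 3 := by decide
  have s5 : (5 : ZMod 6) - 1 = 4 := by decide
  rcases t4_six k with rfl | rfl | rfl | rfl | rfl | rfl <;>
    rcases t4_six k' with rfl | rfl | rfl | rfl | rfl | rfl <;>
    first
    | rfl
    | (simp only [s0, s1, s2, s3, s4, s5] at h2 h4
       simp_all)

/-- finite check: two incoming directions are equal -/
theorem t4_in (m : ZMod 6 → Bool)
    (h : ∀ k, m k = m (k - 1) ∨ m (k + 1) = m k) (k k' : ZMod 6)
    (h1 : m k = false) (h2 : m (k - 1) = true) (h3 : m k' = false) (h4 : m (k' - 1) = true) :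
    k = k' := by
  refine t4_out (fun j => !(m j)) (fun j => ?_) k k' ?_ ?_ ?_ ?_
  · rcases h j with h | h
    · left; simp only [h]
    · right; simp only [h]
  all_goals simp_all

variable {V : Finset Pt} {w : Pt → ℕ} {K : ℕ}

/-- local structure of `mem` at a point of `V` -/
theorem t4_loc (P : Packing V w K) (i : Fin K) (hV : TriFree (V : Set Pt)) {v : Pt} (hv : v ∈ V)
    (k : ZMod 6) : P.mem i v k = P.mem i v (k - 1) ∨ P.mem i v (k + 1) = P.mem i v k := by
  by_cases h : v + e k ∈ V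
  · right
    have h2 : v + e (k + 1) ∉ V := fun h3 =>
      hV v (by exact_mod_cast hv) k (by exact_mod_cast h) (by exact_mod_cast h3)
    have := P.nonedge i v hv (k + 1) h2
    rwa [add_sub_cancel_right] at this
  · left
    exact P.nonedge i v hv k h

theorem t4_memB (P : Packing V w K) (i : Fin K) (b : Pt × ZMod 6) :
    b ∈ P.B i ↔ b.1 ∈ V ∧ P.mem i b.1 b.2 = true ∧ P.mem i b.1 (b.2 - 1) = false := by
  unfold Packing.B
  simp [Finset.mem_filter, Finset.mem_product]

theorem t4_head (P : Packing V w K) (i : Fin K) {b : Pt × ZMod 6} (hb : b ∈ P.B i) :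
    b.1 + e b.2 ∈ V := by
  rw [t4_memB] at hb
  by_contra h
  have := P.nonedge i b.1 hb.1 b.2 h
  rw [hb.2.1, hb.2.2] at this
  exact absurd this (by decide)

theorem t4_left (P : Packing V w K) (i : Fin K) {b : Pt × ZMod 6} (hb : b ∈ P.B i) :
    P.mem i (b.1 + e b.2) (b.2 + 2) = true := by
  rw [t4_memB] at hb
  rw [P.compat, hb.2.1]

theorem t4_right (P : Packing V w K) (i : Fin K) {b : Pt × ZMod 6} (hb : b ∈ P.B i) :
    P.mem i (b.1 + e b.2) (b.2 + 3) = false := by
  rw [t4_memB] at hb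
  have := P.compat i (b.1 + e b.2) (b.2 + 3)
  rw [t4_back, t4_z1] at this
  rw [← this, hb.2.2]

theorem t4_next_fst (P : Packing V w K) (i : Fin K) (b : Pt × ZMod 6) :
    (P.next i b).1 = b.1 + e b.2 := by
  unfold Packing.next
  split_ifs <;> rfl

theorem t4_next_snd (P : Packing V w K) (i : Fin K) (b : Pt × ZMod 6) :
    (P.next i b).2 = b.2 ∨ (P.next i b).2 = b.2 + 1 ∨ (P.next i b).2 = b.2 - 1 := by
  unfold Packing.next
  split_ifs
  · right; left; rfl
  · left; rfl
  · right; right; rfl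

theorem t4_next_mem (P : Packing V w K) (i : Fin K) (hV : TriFree (V : Set Pt))
    {b : Pt × ZMod 6} (hb : b ∈ P.B i) : P.next i b ∈ P.B i := by
  have hh := t4_head P i hb
  have hl := t4_left P i hb
  have hr := t4_right P i hb
  have hback : b.1 + e b.2 + e (b.2 + 3) ∈ V := by
    rw [t4_back]; exact ((t4_memB P i b).mp hb).1
  -- neighbours of the way back are not in V
  have h4 : b.1 + e b.2 + e (b.2 + 3 + 1) ∉ V := fun h3 =>
    hV _ (by exact_mod_cast hh) (b.2 + 3) (by exact_mod_cast hback) (by exact_mod_cast h3)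
  have h2 : b.1 + e b.2 + e (b.2 + 2) ∉ V := fun h3 =>
    hV _ (by exact_mod_cast hh) (b.2 + 2) (by exact_mod_cast h3) (by
      have : b.2 + 2 + 1 = b.2 + 3 := by ring
      rw [this]; exact_mod_cast hback)
  have m4 := P.nonedge i _ hh _ h4
  have m2 := P.nonedge i _ hh _ h2
  have z4 : b.2 + 3 + 1 - 1 = b.2 + 3 := by ring
  have z2 : b.2 + 2 - 1 = b.2 + 1 := by ring
  rw [z4, hr] at m4
  rw [z2, hl] at m2
  have z5 : b.2 + 3 + 1 = b.2 - 1 - 1 := by
    have : ∀ k : ZMod 6, k + 3 + 1 = k - 1 - 1 := by decide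
    exact this b.2
  rw [z5] at m4
  -- local flatness at the directions `b.2`
  have hloc := t4_loc P i hV hh b.2
  rw [t4_memB, t4_next_fst]
  refine ⟨hh, ?_⟩
  unfold Packing.next
  split_ifs with c1 c2
  · simp only
    rw [add_sub_cancel_right]
    exact c1
  · simp only
    exact c2
  · simp only
    refine ⟨?_, m4⟩
    rcases hloc with h | h
    · rw [← h]
      by_contra hc
      rw [Bool.not_eq_true] at hc
      exact c1 ⟨m2.symm, hc⟩
    · rw [← m2] at h
      by_contra hc
      rw [Bool.not_eq_true] at hc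
      exact c2 ⟨h.symm, hc⟩

theorem t4_uniq (P : Packing V w K) (i : Fin K) (hV : TriFree (V : Set Pt))
    {b b' : Pt × ZMod 6} (hb : b ∈ P.B i) (hb' : b' ∈ P.B i) (h : b.1 = b'.1) : b = b' := by
  rw [t4_memB] at hb hb'
  obtain ⟨v, k⟩ := b
  obtain ⟨v', k'⟩ := b'
  simp only at h hb hb'
  subst h
  rw [Prod.mk.injEq]
  exact ⟨rfl, t4_out (fun j => P.mem i v j) (fun j => t4_loc P i hV hb.1 j) k k'
    hb.2.1 hb.2.2 hb'.2.1 hb'.2.2⟩

theorem t4_next_inj (P : Packing V w K) (i : Fin K) (hV : TriFree (V : Set Pt))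
    {b b' : Pt × ZMod 6} (hb : b ∈ P.B i) (hb' : b' ∈ P.B i) (h : P.next i b = P.next i b') :
    b = b' := by
  have hf : b.1 + e b.2 = b'.1 + e b'.2 := by
    rw [← t4_next_fst P i b, ← t4_next_fst P i b', h]
  have hh := t4_head P i hb
  have hl := t4_left P i hb
  have hr := t4_right P i hb
  have hl' := t4_left P i hb'
  have hr' := t4_right P i hb'
  rw [← hf] at hl' hr'
  have z : ∀ k : ZMod 6, k + 3 - 1 = k + 2 := by decide
  have hk := t4_in (fun j => P.mem i (b.1 + e b.2) j) (fun j => t4_loc P i hV hh j)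
    (b.2 + 3) (b'.2 + 3) hr (by simp only [z]; exact hl) hr' (by simp only [z]; exact hl')
  have hk2 : b.2 = b'.2 := add_right_cancel hk
  have hk1 : b.1 = b'.1 := by
    rw [hk2] at hf
    exact add_right_cancel hf
  exact Prod.ext hk1 hk2

/-- a permutation of a finite type of odd cardinality has a point of odd period -/
theorem t4_odd_orbit {β : Type*} [Fintype β] (σ : Equiv.Perm β) (h : Odd (Fintype.card β)) :
    ∃ b : β, Odd (Function.minimalPeriod (fun x => σ x) b) := by
  classical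
  by_contra hc
  push Not at hc
  have h1 : Fintype.card β = ∑ ω : MulAction.orbitRel.Quotient (Subgroup.zpowers σ) β,
      Fintype.card (MulAction.orbit (Subgroup.zpowers σ) ω.out) := by
    rw [Fintype.card_congr (MulAction.selfEquivSigmaOrbits (Subgroup.zpowers σ) β),
      Fintype.card_sigma]
  have h2 : ∀ ω : MulAction.orbitRel.Quotient (Subgroup.zpowers σ) β,
      Even (Fintype.card (MulAction.orbit (Subgroup.zpowers σ) ω.out)) := by
    intro ω
    have := MulAction.minimalPeriod_eq_card (a := σ) (b := ω.out)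
    rw [← this]
    have h3 := hc ω.out
    rw [Nat.not_odd_iff_even] at h3
    exact h3
  rw [h1] at h
  rw [← Nat.not_even_iff_odd] at h
  exact h (Finset.even_sum _ fun ω _ => h2 ω)

theorem t4 : Stmt_T4 := by
  classical
  intro V w K P i hV
  refine ⟨fun b hb => t4_next_mem P i hV hb, fun b hb b' hb' h => t4_uniq P i hV hb hb' h, ?_⟩
  -- the permutation
  let g : ↥(P.B i) → ↥(P.B i) := fun b => ⟨P.next i b.1, t4_next_mem P i hV b.2⟩
  have hg : Function.Injective g := by
    intro b b' h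
    have h1 : P.next i b.1 = P.next i b'.1 := congrArg Subtype.val h
    exact Subtype.ext (t4_next_inj P i hV b.2 b'.2 h1)
  let σ : Equiv.Perm ↥(P.B i) := Equiv.ofBijective g (Finite.injective_iff_bijective.mp hg)
  have hσ : ∀ b, (σ b).1 = P.next i b.1 := fun b => rfl
  have hcard : Odd (Fintype.card ↥(P.B i)) := by
    rw [Fintype.card_coe]
    exact P.odd i
  obtain ⟨b0, hb0⟩ := t4_odd_orbit σ hcard
  set L := Function.minimalPeriod (fun x => σ x) b0 with hL
  let s : ℤ → Pt × ZMod 6 := fun k => ((σ ^ k) b0).1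
  have hsB : ∀ k, s k ∈ P.B i := fun k => ((σ ^ k) b0).2
  have hss : ∀ k, s (k + 1) = P.next i (s k) := by
    intro k
    have : (σ ^ (k + 1)) b0 = σ ((σ ^ k) b0) := by
      rw [add_comm, zpow_add, zpow_one, Equiv.Perm.mul_apply]
    simp only [s]
    rw [this, hσ]
  have hfix : ∀ n : ℤ, (σ ^ n) b0 = b0 ↔ (L : ℤ) ∣ n := by
    intro n
    have := MulAction.zpow_smul_eq_iff_minimalPeriod_dvd (a := σ) (b := b0) (n := n)
    exact this
  have hsinj : ∀ j k, s j = s k → (L : ℤ) ∣ j - k := by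
    intro j k h
    rw [← hfix]
    have h1 : (σ ^ j) b0 = (σ ^ k) b0 := Subtype.ext h
    rw [sub_eq_neg_add, zpow_add, Equiv.Perm.mul_apply, h1, ← Equiv.Perm.mul_apply,
      ← zpow_add, neg_add_cancel, zpow_zero, Equiv.Perm.one_apply]
  have hsper : ∀ k, s (k + L) = s k := by
    intro k
    simp only [s]
    rw [zpow_add, Equiv.Perm.mul_apply, (hfix L).mpr (dvd_refl _)]
  have hpoly : IsPoly (V : Set Pt) L (fun k => (s k).1) (fun k => (s k).2) := by
    refine ⟨hb0, ?_, ?_, ?_, ?_, ?_, ?_⟩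
    · intro k
      simp only [hss, t4_next_fst]
    · intro k
      simp only [hsper]
    · intro k
      simp only [hsper]
    · intro j k h
      exact hsinj j k (t4_uniq P i hV (hsB j) (hsB k) h)
    · intro k
      simp only [hss]
      exact t4_next_snd P i (s k)
    · intro k
      have := ((t4_memB P i (s k)).mp (hsB k)).1
      exact_mod_cast this
  have hmin : ∃ lp : Bool, Minority L (fun k => (s k).2) lp := by
    unfold Minority
    set a := ((range L).filter (fun k : ℕ => par ((s (k : ℤ)).2) = true)).card with ha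
    set b := ((range L).filter (fun k : ℕ => par ((s (k : ℤ)).2) ≠ true)).card with hb
    have hab : a + b = L := by
      rw [ha, hb, Finset.card_filter_add_card_filter_not, Finset.card_range]
    rcases lt_trichotomy a b with h | h | h
    · exact ⟨true, h⟩
    · exfalso
      rw [← hab, h] at hb0
      exact (Nat.not_odd_iff_even.mpr ⟨b, rfl⟩) hb0
    · refine ⟨false, ?_⟩
      have e1 : (range L).filter (fun k : ℕ => par ((s (k : ℤ)).2) = false) =
          (range L).filter (fun k : ℕ => par ((s (k : ℤ)).2) ≠ true) := by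
        refine Finset.filter_congr fun k _ => ?_
        simp
      have e2 : (range L).filter (fun k : ℕ => par ((s (k : ℤ)).2) ≠ false) =
          (range L).filter (fun k : ℕ => par ((s (k : ℤ)).2) = true) := by
        refine Finset.filter_congr fun k _ => ?_
        simp
      rw [e1, e2]
      exact h
  obtain ⟨lp, hlp⟩ := hmin
  refine ⟨lp, L, s, hsB, hss, hpoly, hlp, ?_⟩
  intro f hf hsum
  -- the orbit as a finset
  set O : Finset (Pt × ZMod 6) := (range L).image (fun k : ℕ => s (k : ℤ)) with hO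
  have hOinj : Set.InjOn (fun k : ℕ => s (k : ℤ)) (range L : Set ℕ) := by
    intro j hj k hk h
    have h1 := hsinj _ _ h
    rw [Finset.mem_coe, Finset.mem_range] at hj hk
    obtain ⟨q, hq⟩ := h1
    have hq0 : q = 0 := by
      by_contra hne
      have : (L : ℤ) ≤ |(j : ℤ) - k| := by
        rw [hq, abs_mul, abs_of_nonneg (by positivity : (0 : ℤ) ≤ L)]
        have : 1 ≤ |q| := Int.one_le_abs hne
        nlinarith [(by positivity : (0 : ℤ) ≤ L)]
      have h5 : |(j : ℤ) - k| < L := by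
        rw [abs_lt]; constructor <;> omega
      omega
    rw [hq0, mul_zero] at hq
    omega
  have hOB : O ⊆ P.B i := by
    intro b hb
    rw [hO, Finset.mem_image] at hb
    obtain ⟨k, _, rfl⟩ := hb
    exact hsB _
  have hOcard : O.card = L := by
    rw [hO, Finset.card_image_of_injOn hOinj, Finset.card_range]
  have h1 : ∑ b ∈ O, f b.1 = ∑ k ∈ range L, f (s (k : ℤ)).1 := by
    rw [hO, Finset.sum_image hOinj]
  have h2 : ∑ b ∈ P.B i, f b.1 = ∑ b ∈ P.B i \ O, f b.1 + ∑ b ∈ O, f b.1 :=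
    (Finset.sum_sdiff hOB).symm
  have h3 : ∑ b ∈ P.B i \ O, f b.1 ≤ 3 * (((P.B i).card : ℤ) - L) := by
    calc ∑ b ∈ P.B i \ O, f b.1 ≤ ∑ b ∈ P.B i \ O, (3 : ℤ) :=
          Finset.sum_le_sum fun b _ => hf b.1
      _ = 3 * (((P.B i).card : ℤ) - L) := by
          rw [Finset.sum_const, Finset.card_sdiff_of_subset hOB, hOcard, nsmul_eq_mul]
          have : L ≤ (P.B i).card := hOcard ▸ Finset.card_le_card hOB
          push_cast [Nat.cast_sub this]
          ring
  rw [h2, h1]
  linarith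

end Pool.Agent.H171R2.Tri
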