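import Pool.Agent.H171R2.Tri.DC
import Pool.Agent.H273R2.Tri.T4

/-!
Task D4 of helper171's project: number of boundary edges of all cuts.
-/

namespace Pool.Agent.H171R2.Tri

open Finset

variable {V : Finset Pt} {w : Pt → ℕ} {K : ℕ}

theorem d4_s0 : (0 : ZMod 6) - 1 = 5 := by decide
theorem d4_s1 : (1 : ZMod 6) - 1 = 0 := by decide
theorem d4_s2 : (2 : ZMod 6) - 1 = 1 := by decide
theorem d4_s3 : (3 : ZMod 6) - 1 = 2 := by decide
theorem d4_s4 : (4 : ZMod 6) - 1 = 3 := by decide
theorem d4_s5 : (5 : ZMod 6) - 1 = 4 := by decide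

/-- if something changes there is an up-step -/
theorem d4_up (m : ZMod 6 → Bool) (h : ∃ k, m k ≠ m (k - 1)) :
    ∃ k, m k = true ∧ m (k - 1) = false := by
  by_contra hc
  push Not at hc
  -- m k = true → m (k-1) = true
  have h1 : ∀ k, m k = true → m (k - 1) = true := by
    intro k hk
    have := hc k hk
    simpa using this
  have h0 := h1 0
  have h2 := h1 1
  have h3 := h1 2
  have h4 := h1 3
  have h5 := h1 4
  have h6 := h1 5
  rw [d4_s0] at h0
  rw [d4_s1] at h2
  rw [d4_s2] at h3
  rw [d4_s3] at h4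
  rw [d4_s4] at h5
  rw [d4_s5] at h6
  obtain ⟨k, hk⟩ := h
  rcases t4_six k with rfl | rfl | rfl | rfl | rfl | rfl
  · rw [d4_s0] at hk
    rcases hm : m 0 with _ | _
    · have : m 5 = true := by
        rcases h7 : m 5 with _ | _
        · rw [hm, h7] at hk; exact absurd rfl hk
        · rfl
      simp_all
    · simp_all
  all_goals
    (try rw [d4_s1] at hk); (try rw [d4_s2] at hk); (try rw [d4_s3] at hk)
    (try rw [d4_s4] at hk); (try rw [d4_s5] at hk)
    rcases hm0 : m 0 with _ | _ <;> rcases hm1 : m 1 with _ | _ <;>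
      rcases hm2 : m 2 with _ | _ <;> rcases hm3 : m 3 with _ | _ <;>
      rcases hm4 : m 4 with _ | _ <;> rcases hm5 : m 5 with _ | _ <;> simp_all

theorem d4_count (m : ZMod 6 → Bool) (h : ∀ k, m k = m (k - 1) ∨ m (k + 1) = m k) :
    (univ.filter (fun k => m k = true ∧ m (k - 1) = false)).card =
      if ∃ k, m k ≠ m (k - 1) then 1 else 0 := by
  split_ifs with hc
  · obtain ⟨k, hk1, hk2⟩ := d4_up m hc
    rw [Finset.card_eq_one]
    refine ⟨k, ?_⟩
    ext k'
    simp only [Finset.mem_filter, Finset.mem_univ, true_and, Finset.mem_singleton]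
    constructor
    · rintro ⟨h1, h2⟩
      exact t4_out m h k' k h1 h2 hk1 hk2
    · rintro rfl
      exact ⟨hk1, hk2⟩
  · rw [Finset.card_eq_zero, Finset.filter_eq_empty_iff]
    intro k _ hk
    refine hc ⟨k, ?_⟩
    rw [hk.1, hk.2]
    decide

theorem d4_cross (m : ZMod 6 → Bool) (D : ZMod 6 → Prop)
    (hD : ∀ k, m k ≠ m (k - 1) → D k) (hadj : ∀ k, D k → ¬ D (k + 1))
    (hn3 : ∀ A, ¬ (D A ∧ D (A + 2) ∧ D (A + 4))) (hch : ∃ k, m k ≠ m (k - 1))
    (k0 : ZMod 6) (hk0 : D k0) : m k0 ≠ m (k0 - 1) := by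
  intro heq
  -- consider the six values starting at k0
  have n1 : ¬ D (k0 + 1) := hadj k0 hk0
  have n5 : ¬ D (k0 + 5) := fun h => hadj _ h (by
    have : k0 + 5 + 1 = k0 := by
      have : ∀ k : ZMod 6, k + 5 + 1 = k := by decide
      exact this k0
    rw [this]; exact hk0)
  have c1 : m (k0 + 1) = m k0 := by
    by_contra hne
    refine n1 (hD _ ?_)
    rw [add_sub_cancel_right]; exact hne
  have z5 : k0 - 1 = k0 + 5 := by
    have : ∀ k : ZMod 6, k - 1 = k + 5 := by decide
    exact this k0
  have c5 : m (k0 + 5) = m (k0 + 4) := by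
    by_contra hne
    refine n5 (hD _ ?_)
    have : k0 + 5 - 1 = k0 + 4 := by ring
    rw [this]; exact hne
  rw [z5] at heq
  have n24 : ¬ (D (k0 + 2) ∧ D (k0 + 4)) := fun h => hn3 k0 ⟨hk0, h.1, h.2⟩
  have d2 : m (k0 + 2) ≠ m (k0 + 1) → D (k0 + 2) := fun h => hD _ (by
    have : k0 + 2 - 1 = k0 + 1 := by ring
    rw [this]; exact h)
  have d3 : m (k0 + 3) ≠ m (k0 + 2) → D (k0 + 3) := fun h => hD _ (by
    have : k0 + 3 - 1 = k0 + 2 := by ring
    rw [this]; exact h)
  have d4 : m (k0 + 4) ≠ m (k0 + 3) → D (k0 + 4) := fun h => hD _ (by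
    have : k0 + 4 - 1 = k0 + 3 := by ring
    rw [this]; exact h)
  have a23 : D (k0 + 2) → ¬ D (k0 + 3) := fun h => by
    have := hadj _ h
    have h2 : k0 + 2 + 1 = k0 + 3 := by ring
    rwa [h2] at this
  have a34 : D (k0 + 3) → ¬ D (k0 + 4) := fun h => by
    have := hadj _ h
    have h2 : k0 + 3 + 1 = k0 + 4 := by ring
    rwa [h2] at this
  -- all equal
  have q4 : m (k0 + 4) = m k0 := by rw [← c5, ← heq]
  have key : m (k0 + 2) = m (k0 + 1) ∧ m (k0 + 3) = m (k0 + 2) := by
    by_cases h2 : m (k0 + 2) = m (k0 + 1)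
    · refine ⟨h2, ?_⟩
      by_contra h3
      refine a34 (d3 h3) (d4 ?_)
      intro h4
      exact h3 (by rw [← h4, q4, h2, c1])
    · exfalso
      have hD2 := d2 h2
      have h3 : m (k0 + 3) = m (k0 + 2) := by
        by_contra h3
        exact a23 hD2 (d3 h3)
      refine n24 ⟨hD2, d4 ?_⟩
      intro h4
      exact h2 (by rw [← h3, ← h4, q4, c1])
  obtain ⟨k, hk⟩ := hch
  obtain ⟨j, hj⟩ : ∃ j : ZMod 6, k = k0 + j := ⟨k - k0, by ring⟩
  subst hj
  rcases t4_six j with rfl | rfl | rfl | rfl | rfl | rfl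
  · rw [add_zero, z5] at hk; exact hk heq
  · rw [add_sub_cancel_right] at hk; exact hk c1
  · have : k0 + 2 - 1 = k0 + 1 := by ring
    rw [this] at hk; exact hk key.1
  · have : k0 + 3 - 1 = k0 + 2 := by ring
    rw [this] at hk; exact hk key.2
  · have : k0 + 4 - 1 = k0 + 3 := by ring
    rw [this] at hk
    exact hk (by rw [q4, key.2, key.1, c1])
  · have : k0 + 5 - 1 = k0 + 4 := by ring
    rw [this] at hk; exact hk c5

/-- local structure at a vertex of degree 3 -/
theorem d4_three (P : Packing V w K) (hV : TriFree (V : Set Pt)) {v : Pt} {A : ZMod 6}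
    (h : D3 V v A) (j : Fin K) :
    P.mem j v (A + 1) = P.mem j v A ∧ P.mem j v (A + 3) = P.mem j v (A + 2) ∧
      P.mem j v (A + 5) = P.mem j v (A + 4) ∧ P.mem j v (A - 1) = P.mem j v (A + 4) := by
  obtain ⟨hv, h0, h2, h4⟩ := h
  have t : ∀ k : ZMod 6, v + e k ∈ V → P.mem j v (k + 1) = P.mem j v k := by
    intro k hk
    have hn : v + e (k + 1) ∉ V := fun h3 =>
      hV v (by exact_mod_cast hv) k (by exact_mod_cast hk) (by exact_mod_cast h3)
    have := P.nonedge j v hv (k + 1) hn
    rwa [add_sub_cancel_right] at this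
  have e3 : A + 2 + 1 = A + 3 := by ring
  have e5 : A + 4 + 1 = A + 5 := by ring
  have t2 := t _ h2
  have t4 := t _ h4
  rw [e3] at t2
  rw [e5] at t4
  refine ⟨t _ h0, t2, t4, ?_⟩
  have : A - 1 = A + 5 := by
    have : ∀ k : ZMod 6, k - 1 = k + 5 := by decide
    exact this A
  rw [this, t4]

theorem d4 : Stmt_D4 := by
  classical
  intro V w K P hV
  refine ⟨?_, ?_, ?_⟩
  · -- counting
    have h1 : ∀ i, (P.B i).card = ∑ v ∈ V, if ∃ k, P.mem i v k ≠ P.mem i v (k - 1) then 1 else 0 := by
      intro i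
      unfold Packing.B
      rw [Finset.card_filter, Finset.sum_product]
      refine Finset.sum_congr rfl fun v hv => ?_
      rw [← d4_count (fun k => P.mem i v k) (fun k => t4_loc P i hV hv k), Finset.card_filter]
    rw [Finset.sum_congr rfl (fun i _ => h1 i), Finset.sum_comm]
    refine Finset.sum_congr rfl fun v _ => ?_
    unfold Packing.nv
    rw [Finset.card_filter]
  · intro v hv hn3
    by_cases hch : ∃ j k, P.mem j v k ≠ P.mem j v (k - 1)
    · obtain ⟨j0, k0, hk0⟩ := hch
      have hk0V : v + e k0 ∈ V := by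
        by_contra hn
        exact hk0 (P.nonedge j0 v hv k0 hn)
      refine le_trans (Finset.card_le_card ?_) (P.load v hv k0 hk0V)
      intro j hj
      rw [Finset.mem_filter] at hj ⊢
      refine ⟨hj.1, ?_⟩
      refine d4_cross (fun k => P.mem j v k) (fun k => v + e k ∈ V) ?_ ?_ ?_ hj.2 k0 hk0V
      · intro k hk
        by_contra hn
        exact hk (P.nonedge j v hv k hn)
      · intro k hk hk1
        exact hV v (by exact_mod_cast hv) k (by exact_mod_cast hk) (by exact_mod_cast hk1)
      · intro A hA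
        exact hn3 A ⟨hv, hA.1, hA.2.1, hA.2.2⟩
    · have : P.nv v = 0 := by
        unfold Packing.nv
        rw [Finset.card_eq_zero, Finset.filter_eq_empty_iff]
        rintro j _ ⟨k, hk⟩
        exact hch ⟨j, k, hk⟩
      rw [this]
      exact Nat.zero_le _
  · intro v A h3
    have hloc := fun j => d4_three P hV h3 j
    obtain ⟨hv, hA0, hA2, hA4⟩ := h3
    have z1 : A + 2 + 2 = A + 4 := by ring
    have z2 : A + 2 + 4 = A := by
      have : ∀ k : ZMod 6, k + 2 + 4 = k := by decide
      exact this A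
    have z3 : A + 4 + 2 = A := by
      have : ∀ k : ZMod 6, k + 4 + 2 = k := by decide
      exact this A
    have z4 : A + 4 + 4 = A + 2 := by
      have : ∀ k : ZMod 6, k + 4 + 4 = k + 2 := by decide
      exact this A
    have y2 : A + 2 - 1 = A + 1 := by ring
    have y4 : A + 4 - 1 = A + 3 := by ring
    -- membership in classes
    have m0 : ∀ j, j ∈ P.cls v A ↔ (P.mem j v A ≠ P.mem j v (A + 2) ∧
        P.mem j v (A + 2) = P.mem j v (A + 4)) := by
      intro j; unfold Packing.cls; simp
    have m2 : ∀ j, j ∈ P.cls v (A + 2) ↔ (P.mem j v (A + 2) ≠ P.mem j v (A + 4) ∧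
        P.mem j v (A + 4) = P.mem j v A) := by
      intro j; unfold Packing.cls; simp [z1, z2]
    have m4 : ∀ j, j ∈ P.cls v (A + 4) ↔ (P.mem j v (A + 4) ≠ P.mem j v A ∧
        P.mem j v A = P.mem j v (A + 2)) := by
      intro j; unfold Packing.cls; simp [z3, z4]
    -- all changes
    have hnv : P.nv v ≤ (P.cls v A).card + (P.cls v (A + 2)).card + (P.cls v (A + 4)).card := by
      refine le_trans (Finset.card_le_card (t := P.cls v A ∪ P.cls v (A + 2) ∪ P.cls v (A + 4)) ?_)
        (le_trans (Finset.card_union_le _ _) (Nat.add_le_add_right (Finset.card_union_le _ _) _))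
      intro j hj
      rw [Finset.mem_filter] at hj
      obtain ⟨_, k, hk⟩ := hj
      obtain ⟨l1, l2, l3, l4⟩ := hloc j
      rw [Finset.mem_union, Finset.mem_union, m0, m2, m4]
      by_contra hcon
      -- then all three are equal
      have heq : P.mem j v A = P.mem j v (A + 2) ∧ P.mem j v (A + 2) = P.mem j v (A + 4) := by
        rcases a : P.mem j v A with _ | _ <;> rcases b : P.mem j v (A + 2) with _ | _ <;>
          rcases c : P.mem j v (A + 4) with _ | _ <;> simp [a, b, c] at hcon ⊢
      have hall : ∀ q, P.mem j v (A + q) = P.mem j v A := by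
        intro q
        rcases t4_six q with rfl | rfl | rfl | rfl | rfl | rfl
        · rw [add_zero]
        · exact l1
        · exact heq.1.symm
        · rw [l2]; exact heq.1.symm
        · rw [← heq.2]; exact heq.1.symm
        · rw [l3, ← heq.2]; exact heq.1.symm
      refine hk ?_
      have e1 := hall (k - A)
      have e2 := hall (k - 1 - A)
      rw [add_sub_cancel] at e1 e2
      rw [e1, e2]
    -- loads
    have hl : ∀ k, v + e k ∈ V → (P.X v k).card ≤ w v := fun k hk => P.load v hv k hk
    have x0 : (P.cls v A).card + (P.cls v (A + 4)).card ≤ w v := by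
      refine le_trans (le_of_eq ?_) (le_trans (Finset.card_le_card
        (s := P.cls v A ∪ P.cls v (A + 4)) ?_) (hl A hA0))
      · rw [Finset.card_union_of_disjoint]
        rw [Finset.disjoint_left]
        intro j h1 h2
        rw [m0] at h1
        rw [m4] at h2
        exact h1.1 h2.2
      · intro j hj
        obtain ⟨l1, l2, l3, l4⟩ := hloc j
        rw [Finset.mem_union, m0, m4] at hj
        unfold Packing.X
        simp only [Finset.mem_filter, Finset.mem_univ, true_and]
        rw [l4]
        rcases hj with h | h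
        · intro hh; exact h.1 (by rw [h.2]; exact hh)
        · exact fun hh => h.1 hh.symm
    have x2 : (P.cls v (A + 2)).card + (P.cls v A).card ≤ w v := by
      refine le_trans (le_of_eq ?_) (le_trans (Finset.card_le_card
        (s := P.cls v (A + 2) ∪ P.cls v A) ?_) (hl (A + 2) hA2))
      · rw [Finset.card_union_of_disjoint]
        rw [Finset.disjoint_left]
        intro j h1 h2
        rw [m2] at h1
        rw [m0] at h2
        exact h1.1 h2.2
      · intro j hj
        obtain ⟨l1, l2, l3, l4⟩ := hloc j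
        rw [Finset.mem_union, m0, m2] at hj
        unfold Packing.X
        simp only [Finset.mem_filter, Finset.mem_univ, true_and]
        rw [y2, l1]
        rcases hj with h | h
        · intro hh; exact h.1 (by rw [hh]; exact h.2.symm)
        · exact fun hh => h.1 hh.symm
    have x4 : (P.cls v (A + 4)).card + (P.cls v (A + 2)).card ≤ w v := by
      refine le_trans (le_of_eq ?_) (le_trans (Finset.card_le_card
        (s := P.cls v (A + 4) ∪ P.cls v (A + 2)) ?_) (hl (A + 4) hA4))
      · rw [Finset.card_union_of_disjoint]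
        rw [Finset.disjoint_left]
        intro j h1 h2
        rw [m4] at h1
        rw [m2] at h2
        exact h1.1 h2.2
      · intro j hj
        obtain ⟨l1, l2, l3, l4⟩ := hloc j
        rw [Finset.mem_union, m4, m2] at hj
        unfold Packing.X
        simp only [Finset.mem_filter, Finset.mem_univ, true_and]
        rw [y4, l2]
        rcases hj with h | h
        · intro hh; exact h.1 (by rw [hh]; exact h.2.symm)
        · exact fun hh => h.1 hh.symm
    unfold Packing.ell
    omega

end Pool.Agent.H171R2.Tri
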