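import Pool.Agent.H171R2.Tri.DC
import Pool.Agent.H273R2.Tri.T4

/-!
Task D5 of helper171's project: the payments of a vertex.
-/

namespace Pool.Agent.H171R2.Tri

open Finset

variable {V : Finset Pt} {w : Pt → ℕ} {K : ℕ}

theorem d5_22 (A : ZMod 6) : A + 2 + 2 = A + 4 := by ring
theorem d5_24 (A : ZMod 6) : A + 2 + 4 = A := by
  have : ∀ k : ZMod 6, k + 2 + 4 = k := by decide
  exact this A
theorem d5_42 (A : ZMod 6) : A + 4 + 2 = A := by
  have : ∀ k : ZMod 6, k + 4 + 2 = k := by decide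
  exact this A
theorem d5_44 (A : ZMod 6) : A + 4 + 4 = A + 2 := by
  have : ∀ k : ZMod 6, k + 4 + 4 = k + 2 := by decide
  exact this A

theorem d5_D3_2 {v : Pt} {A : ZMod 6} (h : D3 V v A) : D3 V v (A + 2) := by
  obtain ⟨h0, h1, h2, h3⟩ := h
  refine ⟨h0, h2, ?_, ?_⟩
  · rw [d5_22]; exact h3
  · rw [d5_24]; exact h1

theorem d5_D3_4 {v : Pt} {A : ZMod 6} (h : D3 V v A) : D3 V v (A + 4) := by
  obtain ⟨h0, h1, h2, h3⟩ := h
  refine ⟨h0, h3, ?_, ?_⟩
  · rw [d5_42]; exact h1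
  · rw [d5_44]; exact h2

theorem d5_D3_cases (hV : TriFree (V : Set Pt)) {v : Pt} {A A' : ZMod 6} (h : D3 V v A)
    (h' : D3 V v A') : A' = A ∨ A' = A + 2 ∨ A' = A + 4 := by
  obtain ⟨hv, h0, h2, h4⟩ := h
  obtain ⟨_, h0', _, _⟩ := h'
  obtain ⟨j, rfl⟩ : ∃ j : ZMod 6, A' = A + j := ⟨A' - A, by ring⟩
  have t : ∀ k : ZMod 6, v + e k ∈ V → v + e (k + 1) ∉ V := fun k hk h3 =>
    hV v (by exact_mod_cast hv) k (by exact_mod_cast hk) (by exact_mod_cast h3)
  have e3 : A + 2 + 1 = A + 3 := by ring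
  have e5 : A + 4 + 1 = A + 5 := by ring
  have t2 := t _ h2
  have t4 := t _ h4
  rw [e3] at t2
  rw [e5] at t4
  rcases t4_six j with rfl | rfl | rfl | rfl | rfl | rfl
  · left; rw [add_zero]
  · exact absurd h0' (t _ h0)
  · right; left; rfl
  · exact absurd h0' t2
  · right; right; rfl
  · exact absurd h0' t4

theorem d5_cls0 (P : Packing V w K) (v : Pt) (A : ZMod 6) (j : Fin K) :
    j ∈ P.cls v A ↔ (P.mem j v A ≠ P.mem j v (A + 2) ∧
        P.mem j v (A + 2) = P.mem j v (A + 4)) := by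
  unfold Packing.cls; simp

theorem d5_cls2 (P : Packing V w K) (v : Pt) (A : ZMod 6) (j : Fin K) :
    j ∈ P.cls v (A + 2) ↔ (P.mem j v (A + 2) ≠ P.mem j v (A + 4) ∧
        P.mem j v (A + 4) = P.mem j v A) := by
  unfold Packing.cls; simp [d5_22, d5_24]

theorem d5_cls4 (P : Packing V w K) (v : Pt) (A : ZMod 6) (j : Fin K) :
    j ∈ P.cls v (A + 4) ↔ (P.mem j v (A + 4) ≠ P.mem j v A ∧
        P.mem j v A = P.mem j v (A + 2)) := by
  unfold Packing.cls; simp [d5_42, d5_44]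

theorem d5_disj02 (P : Packing V w K) (v : Pt) (A : ZMod 6) (j : Fin K)
    (h : j ∈ P.cls v A) (h' : j ∈ P.cls v (A + 2)) : False := by
  rw [d5_cls0] at h
  rw [d5_cls2] at h'
  exact h'.1 h.2

theorem d5_disj04 (P : Packing V w K) (v : Pt) (A : ZMod 6) (j : Fin K)
    (h : j ∈ P.cls v A) (h' : j ∈ P.cls v (A + 4)) : False := by
  rw [d5_cls0] at h
  rw [d5_cls4] at h'
  exact h.1 h'.2

theorem d5_disj24 (P : Packing V w K) (v : Pt) (A : ZMod 6) (j : Fin K)
    (h : j ∈ P.cls v (A + 2)) (h' : j ∈ P.cls v (A + 4)) : False := by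
  rw [d5_cls2] at h
  rw [d5_cls4] at h'
  exact h'.1 h.2

theorem d5_Lev2 (P : Packing V w K) {v : Pt} {A : ZMod 6} {j j1 j2 : Fin K}
    (h : P.Lev v A j j1 j2) : P.Lev v (A + 2) j1 j2 j := by
  obtain ⟨h0, h1, h2, h3, h4, h5⟩ := h
  refine ⟨d5_D3_2 h0, h2, ?_, ?_, ?_, ?_⟩
  · rw [d5_22]; exact h3
  · rw [d5_24]; exact h1
  · rw [d5_22, ← h4, ← h5]
  · rw [d5_24, ← h4]

theorem d5_Lev4 (P : Packing V w K) {v : Pt} {A : ZMod 6} {j j1 j2 : Fin K}
    (h : P.Lev v A j j1 j2) : P.Lev v (A + 4) j2 j j1 := by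
  have := d5_Lev2 P (d5_Lev2 P h)
  rwa [d5_22] at this

theorem d5_crk_inj (h1 : Stmt_D1) (h2 : Stmt_D2) (P : Packing V w K) (v : Pt) (A : ZMod 6)
    {j j' : Fin K} (hj : j ∈ P.cls v A) (hj' : j' ∈ P.cls v A) (h : P.crk j v A = P.crk j' v A) :
    j = j' := by
  have := (h1 (Fin K) inferInstance (P.cls v A) (fun j => P.key j v A)
    (fun x _ y _ hxy => (h2 V w K P).1 v A x y hxy)).2.1 j hj j' hj'
  exact this h

theorem d5_crk_ex (h1 : Stmt_D1) (h2 : Stmt_D2) (P : Packing V w K) (v : Pt) (A : ZMod 6)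
    (s : ℕ) (hs1 : 1 ≤ s) (hs2 : s ≤ (P.cls v A).card) : ∃ j ∈ P.cls v A, P.crk j v A = s :=
  (h1 (Fin K) inferInstance (P.cls v A) (fun j => P.key j v A)
    (fun x _ y _ hxy => (h2 V w K P).1 v A x y hxy)).2.2 s hs1 hs2

theorem d5_crk_le (h1 : Stmt_D1) (h2 : Stmt_D2) (P : Packing V w K) (v : Pt) (A : ZMod 6)
    {j : Fin K} (hj : j ∈ P.cls v A) : 1 ≤ P.crk j v A ∧ P.crk j v A ≤ (P.cls v A).card :=
  (h1 (Fin K) inferInstance (P.cls v A) (fun j => P.key j v A)
    (fun x _ y _ hxy => (h2 V w K P).1 v A x y hxy)).1 j hj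

theorem d5_Lev_uniq (h1 : Stmt_D1) (h2 : Stmt_D2) (P : Packing V w K)
    (hV : TriFree (V : Set Pt)) {v : Pt} {A A' : ZMod 6} {i j1 j2 j1' j2' : Fin K}
    (h : P.Lev v A i j1 j2) (h' : P.Lev v A' i j1' j2') : A' = A ∧ j1' = j1 ∧ j2' = j2 := by
  have hA : A' = A := by
    rcases d5_D3_cases hV h.1 h'.1 with r | r | r
    · exact r
    · rw [r] at h'
      exact (d5_disj02 P v A i h.2.1 h'.2.1).elim
    · rw [r] at h'
      exact (d5_disj04 P v A i h.2.1 h'.2.1).elim
  subst hA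
  obtain ⟨_, a1, a2, a3, a4, a5⟩ := h
  obtain ⟨_, b1, b2, b3, b4, b5⟩ := h'
  exact ⟨rfl, d5_crk_inj h1 h2 P v _ b2 a2 (by rw [← b4, a4]),
    d5_crk_inj h1 h2 P v _ b3 a3 (by rw [← b5, a5])⟩

theorem d5_payV_eq (h1 : Stmt_D1) (h2 : Stmt_D2) (P : Packing V w K) (lp : Fin K → Bool)
    (hV : TriFree (V : Set Pt)) {v : Pt} {A : ZMod 6} {i j1 j2 : Fin K}
    (h : P.Lev v A i j1 j2) : P.payV lp i v = P.payT lp i j1 j2 v A := by
  unfold Packing.payV
  rw [Finset.sum_eq_single A, Finset.sum_eq_single j1, Finset.sum_eq_single j2, if_pos h]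
  · intro j2' _ hne
    rw [if_neg]
    intro h'
    exact hne (d5_Lev_uniq h1 h2 P hV h h').2.2
  · intro hn; exact absurd (Finset.mem_univ _) hn
  · intro j1' _ hne
    refine Finset.sum_eq_zero fun j2' _ => ?_
    rw [if_neg]
    intro h'
    exact hne (d5_Lev_uniq h1 h2 P hV h h').2.1
  · intro hn; exact absurd (Finset.mem_univ _) hn
  · intro A' _ hne
    refine Finset.sum_eq_zero fun j1' _ => Finset.sum_eq_zero fun j2' _ => ?_
    rw [if_neg]
    intro h'
    exact hne (d5_Lev_uniq h1 h2 P hV h h').1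
  · intro hn; exact absurd (Finset.mem_univ _) hn

theorem d5_payV_ne (P : Packing V w K) (lp : Fin K → Bool) {v : Pt} {i : Fin K}
    (h : P.payV lp i v ≠ 0) : ∃ A j1 j2, P.Lev v A i j1 j2 := by
  by_contra hc
  push Not at hc
  refine h ?_
  unfold Packing.payV
  refine Finset.sum_eq_zero fun A _ => Finset.sum_eq_zero fun j1 _ =>
    Finset.sum_eq_zero fun j2 _ => ?_
  rw [if_neg (hc A j1 j2)]

theorem d5_shift_le (V : Finset Pt) (v : Pt) (k : ZMod 6) :
    shiftDir V v k ≤ 1 ∧ -1 ≤ shiftDir V v k := by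
  unfold shiftDir
  split_ifs <;> norm_num

theorem d5_payT_le (P : Packing V w K) (lp : Fin K → Bool) (j j1 j2 : Fin K) (v : Pt)
    (A : ZMod 6) : P.payT lp j j1 j2 v A ≤ 3 := by
  unfold Packing.payT
  have a := d5_shift_le V v A
  have b := d5_shift_le V v (A + 2)
  split_ifs <;> omega

theorem d5_payT_sum (P : Packing V w K) (lp : Fin K → Bool) (j j1 j2 : Fin K) (v : Pt)
    (A : ZMod 6) : 3 ≤ P.payT lp j j1 j2 v A + P.payT lp j1 j2 j v (A + 2) +
      P.payT lp j2 j j1 v (A + 4) := by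
  unfold Packing.payT
  rw [d5_22, d5_24, d5_42, d5_44]
  generalize P.lowLong lp j v A = L0
  generalize P.lowLong lp j1 v (A + 2) = L1
  generalize P.lowLong lp j2 v (A + 4) = L2
  generalize P.lowE lp j v A = e0
  generalize P.lowE lp j1 v (A + 2) = e1
  generalize P.lowE lp j2 v (A + 4) = e2
  generalize shiftDir V v A = s0
  generalize shiftDir V v (A + 2) = s1
  generalize shiftDir V v (A + 4) = s2
  cases L0 <;> cases L1 <;> cases L2 <;> cases e0 <;> cases e1 <;> cases e2 <;> simp <;>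
    try omega

theorem d5_sum_level (h1 : Stmt_D1) (h2 : Stmt_D2) (P : Packing V w K) (v : Pt) (A : ZMod 6)
    (l : ℕ) (_hl : l ≤ (P.cls v A).card) (c : ℕ → Fin K)
    (hc : ∀ s, 1 ≤ s → s ≤ l → c s ∈ P.cls v A ∧ P.crk (c s) v A = s) (f : Fin K → ℤ) :
    ∑ i ∈ (P.cls v A).filter (fun i => P.crk i v A ≤ l), f i = ∑ s ∈ Finset.Icc 1 l, f (c s) := by
  symm
  refine Finset.sum_nbij c ?_ ?_ ?_ (fun _ _ => rfl)
  · intro s hs
    rw [Finset.mem_Icc] at hs
    rw [Finset.mem_filter]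
    exact ⟨(hc s hs.1 hs.2).1, by rw [(hc s hs.1 hs.2).2]; exact hs.2⟩
  · intro s hs s' hs' heq
    rw [Finset.mem_coe, Finset.mem_Icc] at hs hs'
    rw [← (hc s hs.1 hs.2).2, ← (hc s' hs'.1 hs'.2).2, heq]
  · intro i hi
    rw [Finset.mem_coe, Finset.mem_filter] at hi
    have h3 := d5_crk_le h1 h2 P v A hi.1
    refine ⟨P.crk i v A, by rw [Finset.mem_coe, Finset.mem_Icc]; exact ⟨h3.1, hi.2⟩, ?_⟩
    have h4 := hc (P.crk i v A) h3.1 hi.2
    exact d5_crk_inj h1 h2 P v A h4.1 hi.1 h4.2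

theorem d5 (h1 : Stmt_D1) (h2 : Stmt_D2) : Stmt_D5 := by
  classical
  intro V w K P lp hV
  refine ⟨?_, ?_, ?_, ?_, ?_⟩
  · intro v A h3
    set l := P.ell v A with hl
    have l0 : l ≤ (P.cls v A).card := by rw [hl]; unfold Packing.ell; omega
    have l2 : l ≤ (P.cls v (A + 2)).card := by rw [hl]; unfold Packing.ell; omega
    have l4 : l ≤ (P.cls v (A + 4)).card := by rw [hl]; unfold Packing.ell; omega
    have hK : 1 ≤ l → Nonempty (Fin K) := by
      intro h
      obtain ⟨j, _, _⟩ := d5_crk_ex h1 h2 P v A 1 le_rfl (by omega)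
      exact ⟨j⟩
    rcases Nat.eq_zero_or_pos l with hl0 | hlpos
    · -- no levels: the sum is nonnegative since it is zero
      have hz : ∀ i, P.payV lp i v = 0 := by
        intro i
        by_contra hne
        obtain ⟨A', j1, j2, hL⟩ := d5_payV_ne P lp hne
        have key : ∀ {B : ZMod 6} {a b c : Fin K}, P.Lev v B a b c → B = A → False := by
          intro B a b c hB hBA
          subst hBA
          obtain ⟨_, b1, b2, b3, b4, b5⟩ := hB
          have r0 := d5_crk_le h1 h2 P v _ b1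
          have r1 := d5_crk_le h1 h2 P v _ b2
          have r2 := d5_crk_le h1 h2 P v _ b3
          have : 1 ≤ P.ell v B := by unfold Packing.ell; omega
          omega
        rcases d5_D3_cases hV h3 hL.1 with r | r | r
        · exact key hL r
        · refine key (d5_Lev4 P hL) ?_
          rw [r, d5_24]
        · refine key (d5_Lev2 P hL) ?_
          rw [r, d5_42]
      rw [hl0, Finset.sum_eq_zero (fun i _ => hz i)]
      norm_num
    · obtain ⟨dflt⟩ := hK hlpos
      have ex : ∀ (B : ZMod 6), l ≤ (P.cls v B).card → ∃ c : ℕ → Fin K,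
          ∀ s, 1 ≤ s → s ≤ l → c s ∈ P.cls v B ∧ P.crk (c s) v B = s := by
        intro B hB
        refine ⟨fun s => if h : 1 ≤ s ∧ s ≤ l then
          (d5_crk_ex h1 h2 P v B s h.1 (h.2.trans hB)).choose else dflt, ?_⟩
        intro s hs1 hs2
        simp only [dif_pos (And.intro hs1 hs2)]
        exact (d5_crk_ex h1 h2 P v B s hs1 (hs2.trans hB)).choose_spec
      obtain ⟨c0, hc0⟩ := ex A l0
      obtain ⟨c2, hc2⟩ := ex (A + 2) l2
      obtain ⟨c4, hc4⟩ := ex (A + 4) l4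
      have hLev : ∀ s, 1 ≤ s → s ≤ l → P.Lev v A (c0 s) (c2 s) (c4 s) := by
        intro s a b
        refine ⟨h3, (hc0 s a b).1, (hc2 s a b).1, (hc4 s a b).1, ?_, ?_⟩
        · rw [(hc0 s a b).2, (hc2 s a b).2]
        · rw [(hc0 s a b).2, (hc4 s a b).2]
      set S0 := (P.cls v A).filter (fun i => P.crk i v A ≤ l) with hS0
      set S2 := (P.cls v (A + 2)).filter (fun i => P.crk i v (A + 2) ≤ l) with hS2
      set S4 := (P.cls v (A + 4)).filter (fun i => P.crk i v (A + 4) ≤ l) with hS4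
      have d02 : Disjoint S0 S2 := by
        rw [Finset.disjoint_left]
        intro j a b
        exact d5_disj02 P v A j (Finset.mem_filter.mp a).1 (Finset.mem_filter.mp b).1
      have d024 : Disjoint (S0 ∪ S2) S4 := by
        rw [Finset.disjoint_left]
        intro j a b
        rw [Finset.mem_union] at a
        rcases a with a | a
        · exact d5_disj04 P v A j (Finset.mem_filter.mp a).1 (Finset.mem_filter.mp b).1
        · exact d5_disj24 P v A j (Finset.mem_filter.mp a).1 (Finset.mem_filter.mp b).1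
      have hsum : ∑ i, P.payV lp i v = ∑ i ∈ (S0 ∪ S2) ∪ S4, P.payV lp i v := by
        symm
        refine Finset.sum_subset (Finset.subset_univ _) ?_
        intro i _ hi
        by_contra hne
        obtain ⟨A', j1, j2, hL⟩ := d5_payV_ne P lp hne
        refine hi ?_
        have key : ∀ {B : ZMod 6} {a b c : Fin K}, P.Lev v B a b c → B = A →
            a ∈ S0 ∧ b ∈ S2 ∧ c ∈ S4 := by
          intro B a b c hB hBA
          subst hBA
          obtain ⟨_, b1, b2, b3, b4, b5⟩ := hB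
          have r0 := d5_crk_le h1 h2 P v _ b1
          have r1 := d5_crk_le h1 h2 P v _ b2
          have r2 := d5_crk_le h1 h2 P v _ b3
          have : P.crk a v B ≤ l := by rw [hl]; unfold Packing.ell; omega
          refine ⟨Finset.mem_filter.mpr ⟨b1, this⟩, Finset.mem_filter.mpr ⟨b2, ?_⟩,
            Finset.mem_filter.mpr ⟨b3, ?_⟩⟩
          · omega
          · omega
        rw [Finset.mem_union, Finset.mem_union]
        rcases d5_D3_cases hV h3 hL.1 with r | r | r
        · exact Or.inl (Or.inl (key hL r).1)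
        · have := key (d5_Lev4 P hL) (by rw [r, d5_24])
          exact Or.inl (Or.inr this.2.1)
        · have := key (d5_Lev2 P hL) (by rw [r, d5_42])
          exact Or.inr this.2.2
      rw [hsum, Finset.sum_union d024, Finset.sum_union d02,
        d5_sum_level h1 h2 P v A l l0 c0 hc0, d5_sum_level h1 h2 P v (A + 2) l l2 c2 hc2,
        d5_sum_level h1 h2 P v (A + 4) l l4 c4 hc4, ← Finset.sum_add_distrib,
        ← Finset.sum_add_distrib]
      calc 3 * (l : ℤ) = ∑ s ∈ Finset.Icc 1 l, (3 : ℤ) := by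
            rw [Finset.sum_const, Nat.card_Icc, Nat.add_sub_cancel, nsmul_eq_mul]
            ring
        _ ≤ _ := by
            refine Finset.sum_le_sum fun s hs => ?_
            rw [Finset.mem_Icc] at hs
            have hL := hLev s hs.1 hs.2
            rw [d5_payV_eq h1 h2 P lp hV hL, d5_payV_eq h1 h2 P lp hV (d5_Lev2 P hL),
              d5_payV_eq h1 h2 P lp hV (d5_Lev4 P hL)]
            exact d5_payT_sum P lp (c0 s) (c2 s) (c4 s) v A
  · intro v hn i
    by_contra hne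
    obtain ⟨A, j1, j2, hL⟩ := d5_payV_ne P lp hne
    exact hn A hL.1
  · intro i v A j1 j2 hL
    exact d5_payV_eq h1 h2 P lp hV hL
  · intro i v
    by_cases h0 : P.payV lp i v = 0
    · rw [h0]; norm_num
    · obtain ⟨A, j1, j2, hL⟩ := d5_payV_ne P lp h0
      rw [d5_payV_eq h1 h2 P lp hV hL]
      exact d5_payT_le P lp i j1 j2 v A
  · intro i v hne
    exact d5_payV_ne P lp hne

end Pool.Agent.H171R2.Tri
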